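import Pool.Agent.Work.MP_ef7f46_ll.Interface

/-!
# THEOREM PW (MP_ef7f46_co, pair weights), block CNT: few lines have many points
-/

set_option autoImplicit false
open Classical
open EpsNet.Elem (lineThrough spannedLines IsEpsNet)

namespace Pool.LLN

theorem CNT_inter (hLTU : Stmt_LTU) {P : Finset Pt} {l l' : Set Pt} (hl : l ∈ spannedLines P)
    (hl' : l' ∈ spannedLines P) (hne : l ≠ l') (Q : Finset Pt) :
    (Q.filter (fun p => p ∈ l ∧ p ∈ l')).card ≤ 1 := by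
  rw [Finset.card_le_one]
  intro a ha b hb
  by_contra hab
  simp only [Finset.mem_filter] at ha hb
  obtain ⟨⟨u, v⟩, h1, h2⟩ := Finset.mem_image.1 hl
  obtain ⟨⟨u', v'⟩, h1', h2'⟩ := Finset.mem_image.1 hl'
  have huv : u ≠ v := (Finset.mem_offDiag.1 h1).2.2
  have huv' : u' ≠ v' := (Finset.mem_offDiag.1 h1').2.2
  subst h2
  subst h2'
  exact hne ((hLTU u v a b huv hab ha.2.1 hb.2.1).symm.trans
    (hLTU u' v' a b huv' hab ha.2.2 hb.2.2))

theorem CNT_cup (hLTU : Stmt_LTU) {P : Finset Pt} (Q : Finset Pt) (s : ℝ)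
    (L : Finset (Set Pt)) (hL : L ⊆ spannedLines P)
    (hs : ∀ l ∈ L, s ≤ ((Q.filter (fun p => p ∈ l)).card : ℝ)) :
    (L.card : ℝ) * s - (L.card : ℝ) * ((L.card : ℝ) - 1) / 2 ≤
      ((L.biUnion (fun l => Q.filter (fun p => p ∈ l))).card : ℝ) := by
  induction L using Finset.induction_on with
  | empty => simp
  | insert l L hl ih =>
    have ih' := ih (fun x hx => hL (Finset.mem_insert_of_mem hx))
      (fun x hx => hs x (Finset.mem_insert_of_mem hx))
    have hsl := hs l (Finset.mem_insert_self l L)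
    rw [Finset.biUnion_insert, Finset.card_insert_of_notMem hl]
    have h1 := Finset.card_union_add_card_inter (Q.filter (fun p => p ∈ l))
      (L.biUnion (fun l => Q.filter (fun p => p ∈ l)))
    have h2 : ((Q.filter (fun p => p ∈ l)) ∩
        (L.biUnion (fun l => Q.filter (fun p => p ∈ l)))).card ≤ L.card := by
      have h3 : ((Q.filter (fun p => p ∈ l)) ∩
          (L.biUnion (fun l => Q.filter (fun p => p ∈ l)))) ⊆
          L.biUnion (fun l' => Q.filter (fun p => p ∈ l ∧ p ∈ l')) := by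
        intro x hx
        simp only [Finset.mem_inter, Finset.mem_biUnion, Finset.mem_filter] at hx ⊢
        obtain ⟨⟨hq, hxl⟩, l', hl', _, hxl'⟩ := hx
        exact ⟨l', hl', hq, hxl, hxl'⟩
      refine (Finset.card_le_card h3).trans ?_
      have h4 := Finset.card_biUnion_le_card_mul L
        (fun l' => Q.filter (fun p => p ∈ l ∧ p ∈ l')) 1 (fun l' hl' =>
          CNT_inter hLTU (hL (Finset.mem_insert_self l L))
            (hL (Finset.mem_insert_of_mem hl')) (fun h => hl (h ▸ hl')) Q)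
      simpa using h4
    have h1' : (((Q.filter (fun p => p ∈ l)) ∪
        (L.biUnion (fun l => Q.filter (fun p => p ∈ l)))).card : ℝ) +
        (((Q.filter (fun p => p ∈ l)) ∩
        (L.biUnion (fun l => Q.filter (fun p => p ∈ l)))).card : ℝ) =
        ((Q.filter (fun p => p ∈ l)).card : ℝ) +
        ((L.biUnion (fun l => Q.filter (fun p => p ∈ l))).card : ℝ) := by
      exact_mod_cast h1
    have h2' : (((Q.filter (fun p => p ∈ l)) ∩
        (L.biUnion (fun l => Q.filter (fun p => p ∈ l)))).card : ℝ) ≤ (L.card : ℝ) := by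
      exact_mod_cast h2
    have h5 : ((L.card + 1 : ℕ) : ℝ) * s - ((L.card + 1 : ℕ) : ℝ) * (((L.card + 1 : ℕ) : ℝ) - 1) / 2 =
        ((L.card : ℝ) * s - (L.card : ℝ) * ((L.card : ℝ) - 1) / 2) + s - (L.card : ℝ) := by
      push_cast
      ring
    rw [h5]
    linarith

theorem CNT_main (hLTU : Stmt_LTU) {P : Finset Pt} (Q : Finset Pt) (s : ℝ)
    (L : Finset (Set Pt)) (hL : L ⊆ spannedLines P)
    (hs : ∀ l ∈ L, s ≤ ((Q.filter (fun p => p ∈ l)).card : ℝ)) :
    (L.card : ℝ) * s - (L.card : ℝ) * ((L.card : ℝ) - 1) / 2 ≤ (Q.card : ℝ) := by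
  refine (CNT_cup hLTU Q s L hL hs).trans ?_
  have h : (L.biUnion (fun l => Q.filter (fun p => p ∈ l))) ⊆ Q := by
    intro x hx
    simp only [Finset.mem_biUnion, Finset.mem_filter] at hx
    obtain ⟨_, _, hq, _⟩ := hx
    exact hq
  exact_mod_cast Finset.card_le_card h

/-- If `|Q| ≥ 2 / e²` then at most `2 / e` lines contain at least `e |Q|` points of `Q`. -/
theorem p_CNTA (hLTU : Stmt_LTU) (P Q : Finset Pt) (e : ℝ) (he : 0 < e)
    (hn : 2 / e ^ 2 ≤ (Q.card : ℝ)) :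
    (((spannedLines P).filter (fun l => e * (Q.card : ℝ) ≤
      ((Q.filter (fun p => p ∈ l)).card : ℝ))).card : ℝ) ≤ 2 / e := by
  by_contra h
  push Not at h
  obtain ⟨L, hL, hLc⟩ := Finset.exists_subset_card_eq (Nat.ceil_le.2 h.le)
  have h1 := CNT_main hLTU (P := P) Q (e * (Q.card : ℝ)) L
    (hL.trans (Finset.filter_subset _ _)) (fun l hl => (Finset.mem_filter.1 (hL hl)).2)
  rw [hLc] at h1
  have hx1 : 2 / e ≤ ((⌈2 / e⌉₊ : ℕ) : ℝ) := Nat.le_ceil _
  have hx2 : ((⌈2 / e⌉₊ : ℕ) : ℝ) < 2 / e + 1 := Nat.ceil_lt_add_one (by positivity)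
  set x : ℝ := ((⌈2 / e⌉₊ : ℕ) : ℝ) with hx
  set n : ℝ := (Q.card : ℝ) with hnn
  have hn0 : 0 ≤ n := Nat.cast_nonneg _
  have hxp : 0 < x := lt_of_lt_of_le (by positivity) hx1
  have hex : 2 ≤ e * x := by
    have := (div_le_iff₀ he).1 hx1
    linarith
  have h2 : n * (e * x) / 2 ≤ x * (x - 1) / 2 := by nlinarith
  have h3 : n * e ≤ x - 1 := by
    have : x * (n * e) ≤ x * (x - 1) := by nlinarith
    exact le_of_mul_le_mul_left this hxp
  have h4 : n * e < 2 / e := by linarith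
  have h5 : n * e * e < 2 := (lt_div_iff₀ he).1 h4
  have h6 : 2 ≤ n * e ^ 2 := (div_le_iff₀ (by positivity)).1 hn
  nlinarith

/-- At most `2 √|Q|` lines contain at least `2 √|Q|` points of `Q`. -/
theorem p_CNTB (hLTU : Stmt_LTU) (P Q : Finset Pt) (hn : Q.Nonempty) :
    (((spannedLines P).filter (fun l => 2 * Real.sqrt (Q.card : ℝ) ≤
      ((Q.filter (fun p => p ∈ l)).card : ℝ))).card : ℝ) ≤ 2 * Real.sqrt (Q.card : ℝ) := by
  by_contra h
  push Not at h
  obtain ⟨L, hL, hLc⟩ := Finset.exists_subset_card_eq (Nat.ceil_le.2 h.le)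
  have h1 := CNT_main hLTU (P := P) Q (2 * Real.sqrt (Q.card : ℝ)) L
    (hL.trans (Finset.filter_subset _ _)) (fun l hl => (Finset.mem_filter.1 (hL hl)).2)
  rw [hLc] at h1
  have hx1 : 2 * Real.sqrt (Q.card : ℝ) ≤ ((⌈2 * Real.sqrt (Q.card : ℝ)⌉₊ : ℕ) : ℝ) :=
    Nat.le_ceil _
  have hx2 : ((⌈2 * Real.sqrt (Q.card : ℝ)⌉₊ : ℕ) : ℝ) < 2 * Real.sqrt (Q.card : ℝ) + 1 :=
    Nat.ceil_lt_add_one (by positivity)
  have hq1 : (1 : ℝ) ≤ (Q.card : ℝ) := by exact_mod_cast Finset.card_pos.2 hn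
  have hr0 : 0 ≤ Real.sqrt (Q.card : ℝ) := Real.sqrt_nonneg _
  have hr : Real.sqrt (Q.card : ℝ) * Real.sqrt (Q.card : ℝ) = (Q.card : ℝ) :=
    Real.mul_self_sqrt (by linarith)
  set r : ℝ := Real.sqrt (Q.card : ℝ) with hrr
  set x : ℝ := ((⌈2 * r⌉₊ : ℕ) : ℝ) with hx
  have hx0 : 0 ≤ x := by linarith
  nlinarith [mul_nonneg hx0 (by linarith : (0 : ℝ) ≤ 2 * r - (x - 1)), mul_nonneg hr0 (by linarith : (0 : ℝ) ≤ x - 2 * r)]

end Pool.LLN
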