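import Pool.Agent.Work.MP_ef7f46_ll.Interface

/-!
# THEOREM PW (MP_ef7f46_co, pair weights), block CUB: the cubes of the sizes of the lines
-/

set_option autoImplicit false
open Classical
open EpsNet.Elem (lineThrough spannedLines IsEpsNet)

namespace Pool.LLN

theorem CUB_st (hINC : Stmt_INC) (P Q : Finset Pt) (hQ : Q ⊆ P) (T : Finset (Set Pt))
    (hT : T ⊆ spannedLines P) (i : ℕ) (hi : 1 ≤ i) (hi2 : (i : ℝ) ^ 2 ≤ 4 * (Q.card : ℝ))
    (hs : ∀ l ∈ T, i + 1 ≤ (Q.filter (fun p => p ∈ l)).card) :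
    (i : ℝ) ^ 3 * (T.card : ℝ) ≤ 128 * (Q.card : ℝ) ^ 2 := by
  have hn0 : (0 : ℝ) ≤ (Q.card : ℝ) := Nat.cast_nonneg _
  have ht0 : (0 : ℝ) ≤ (T.card : ℝ) := Nat.cast_nonneg _
  have hi0 : (1 : ℝ) ≤ i := by exact_mod_cast hi
  rcases lt_or_ge (2 * (T.card : ℝ)) (i : ℝ) with h | h
  · have h1 : (i : ℝ) ^ 3 * (T.card : ℝ) ≤ (i : ℝ) ^ 3 * (i / 2) := by
      apply mul_le_mul_of_nonneg_left _ (by positivity)
      linarith
    have h3 : ((i : ℝ) ^ 2) ^ 2 ≤ (4 * (Q.card : ℝ)) ^ 2 := by gcongr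
    nlinarith [sq_nonneg (Q.card : ℝ)]
  · have htp : (0 : ℝ) < (T.card : ℝ) := by linarith
    have hq2 : (i : ℝ) / (2 * (T.card : ℝ)) ≤ 1 := (div_le_one (by positivity)).2 h
    have hq0 : 0 < Real.sqrt ((i : ℝ) / (2 * (T.card : ℝ))) := Real.sqrt_pos.2 (by positivity)
    have hq1 : Real.sqrt ((i : ℝ) / (2 * (T.card : ℝ))) ≤ 1 :=
      Real.sqrt_le_iff.2 ⟨zero_le_one, by simpa using hq2⟩
    have hqq : Real.sqrt ((i : ℝ) / (2 * (T.card : ℝ))) ^ 2 = (i : ℝ) / (2 * (T.card : ℝ)) :=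
      Real.sq_sqrt (by positivity)
    have h1 : ∑ l ∈ T, (1 : ℝ) * (((Q.filter (fun p => p ∈ l)).card : ℝ) - 1) ≤
        4 * (Q.card : ℝ) / Real.sqrt ((i : ℝ) / (2 * (T.card : ℝ))) +
          Real.sqrt ((i : ℝ) / (2 * (T.card : ℝ))) ^ 2 * (∑ l ∈ T, (1 : ℝ)) ^ 2 :=
      hINC P Q T (fun _ => 1) (Real.sqrt ((i : ℝ) / (2 * (T.card : ℝ)))) hQ hT
        (fun l _ => ⟨zero_le_one, le_refl _⟩) hq0 hq1
    have h3 : ∑ l ∈ T, (1 : ℝ) = (T.card : ℝ) := by simp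
    rw [hqq, h3] at h1
    have h2 : (T.card : ℝ) * (i : ℝ) ≤
        ∑ l ∈ T, (1 : ℝ) * (((Q.filter (fun p => p ∈ l)).card : ℝ) - 1) := by
      have h4 : ∑ l ∈ T, (i : ℝ) ≤
          ∑ l ∈ T, (1 : ℝ) * (((Q.filter (fun p => p ∈ l)).card : ℝ) - 1) := by
        apply Finset.sum_le_sum
        intro l hl
        have h5 : ((i + 1 : ℕ) : ℝ) ≤ (((Q.filter (fun p => p ∈ l)).card : ℕ) : ℝ) := by
          exact_mod_cast hs l hl
        push_cast at h5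
        linarith
      rwa [Finset.sum_const, nsmul_eq_mul] at h4
    set t : ℝ := (T.card : ℝ) with ht
    set n : ℝ := (Q.card : ℝ) with hn
    set q : ℝ := Real.sqrt ((i : ℝ) / (2 * t)) with hq
    have h6 : (i : ℝ) / (2 * t) * t ^ 2 = (i : ℝ) * t / 2 := by
      field_simp
    rw [h6] at h1
    have h7 : (i : ℝ) * t / 2 ≤ 4 * n / q := by nlinarith
    have h8 : (i : ℝ) * t / 2 * q ≤ 4 * n := (le_div_iff₀ hq0).1 h7
    have h9 : ((i : ℝ) * t / 2 * q) ^ 2 ≤ (4 * n) ^ 2 := by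
      apply pow_le_pow_left₀ (by positivity) h8
    have h10 : ((i : ℝ) * t / 2 * q) ^ 2 = (i : ℝ) ^ 3 * t / 8 := by
      rw [mul_pow, hqq]
      field_simp
      ring
    rw [h10] at h9
    nlinarith

theorem CUB_layer (k : ℕ) : ((k : ℝ) + 2) ^ 3 ≤ 24 * ∑ i ∈ Finset.Icc 1 (k + 1), (i : ℝ) ^ 2 := by
  induction k with
  | zero => norm_num
  | succ k ih =>
    rw [Finset.sum_Icc_succ_top (by omega)]
    push_cast
    push_cast at ih
    nlinarith [sq_nonneg (k : ℝ), (Nat.cast_nonneg k : (0 : ℝ) ≤ (k : ℝ))]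

/-- The cubes of the numbers of points of `Q` on the lines with at least 2 and less than
`2 √|Q|` points of `Q` have sum at most `3072 |Q|² (1 + log (2 √|Q|))`. -/
theorem p_CUB (hINC : Stmt_INC) (P Q : Finset Pt) (hQ : Q ⊆ P) :
    ∑ l ∈ (spannedLines P).filter (fun l => 2 ≤ (Q.filter (fun p => p ∈ l)).card ∧
        ((Q.filter (fun p => p ∈ l)).card : ℝ) < 2 * Real.sqrt (Q.card : ℝ)),
      ((Q.filter (fun p => p ∈ l)).card : ℝ) ^ 3 ≤
      3072 * (Q.card : ℝ) ^ 2 * (1 + Real.log (2 * Real.sqrt (Q.card : ℝ))) := by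
  rcases Q.eq_empty_or_nonempty with h0 | h0
  · subst h0
    simp
  have hq1 : (1 : ℝ) ≤ (Q.card : ℝ) := by exact_mod_cast Finset.card_pos.2 h0
  have hr1 : 1 ≤ Real.sqrt (Q.card : ℝ) := Real.one_le_sqrt.2 hq1
  have hrr : Real.sqrt (Q.card : ℝ) ^ 2 = (Q.card : ℝ) := Real.sq_sqrt (by linarith)
  set L := (spannedLines P).filter (fun l => 2 ≤ (Q.filter (fun p => p ∈ l)).card ∧
        ((Q.filter (fun p => p ∈ l)).card : ℝ) < 2 * Real.sqrt (Q.card : ℝ)) with hL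
  set J := Finset.Icc 1 ⌊2 * Real.sqrt (Q.card : ℝ)⌋₊ with hJ
  have h1 : ∀ l ∈ L, ((Q.filter (fun p => p ∈ l)).card : ℝ) ^ 3 ≤
      24 * ∑ i ∈ J, (if i + 1 ≤ (Q.filter (fun p => p ∈ l)).card then (i : ℝ) ^ 2 else 0) := by
    intro l hl
    obtain ⟨_, h2, h3⟩ := Finset.mem_filter.1 hl
    obtain ⟨k, hk⟩ := Nat.exists_eq_add_of_le h2
    rw [hk, ← Finset.sum_filter]
    have h4 : J.filter (fun i => i + 1 ≤ 2 + k) = Finset.Icc 1 (k + 1) := by
      have h5 : 2 + k ≤ ⌊2 * Real.sqrt (Q.card : ℝ)⌋₊ := by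
        apply Nat.le_floor
        rw [← hk]
        exact h3.le
      ext i
      simp only [hJ, Finset.mem_filter, Finset.mem_Icc]
      omega
    rw [h4]
    have h6 := CUB_layer k
    push_cast
    rw [add_comm (2 : ℝ) (k : ℝ)]
    exact h6
  refine (Finset.sum_le_sum h1).trans ?_
  rw [← Finset.mul_sum, Finset.sum_comm]
  have h2 : ∀ i ∈ J, ∑ l ∈ L, (if i + 1 ≤ (Q.filter (fun p => p ∈ l)).card then (i : ℝ) ^ 2 else 0)
      ≤ 128 * (Q.card : ℝ) ^ 2 * (i : ℝ)⁻¹ := by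
    intro i hi
    obtain ⟨hi1, hi2⟩ := Finset.mem_Icc.1 hi
    have hi0 : (1 : ℝ) ≤ (i : ℝ) := by exact_mod_cast hi1
    have hi3 : (i : ℝ) ≤ 2 * Real.sqrt (Q.card : ℝ) :=
      (Nat.le_floor_iff (by positivity)).1 hi2
    have hi4 : (i : ℝ) ^ 2 ≤ 4 * (Q.card : ℝ) := by
      have := pow_le_pow_left₀ (by linarith) hi3 2
      rw [mul_pow, hrr] at this
      linarith
    rw [← Finset.sum_filter, Finset.sum_const, nsmul_eq_mul]
    have h3 := CUB_st hINC P Q hQ (L.filter (fun l => i + 1 ≤ (Q.filter (fun p => p ∈ l)).card))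
      ((Finset.filter_subset _ _).trans (Finset.filter_subset _ _)) i hi1 hi4
      (fun l hl => (Finset.mem_filter.1 hl).2)
    rw [← div_eq_mul_inv, le_div_iff₀ (by linarith)]
    calc _ = (i : ℝ) ^ 3 *
        ((L.filter (fun l => i + 1 ≤ (Q.filter (fun p => p ∈ l)).card)).card : ℝ) := by ring
      _ ≤ _ := h3
  have h3 := Finset.sum_le_sum h2
  rw [← Finset.mul_sum] at h3
  have h4 : ∑ i ∈ J, (i : ℝ)⁻¹ ≤ 1 + Real.log (2 * Real.sqrt (Q.card : ℝ)) := by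
    have h5 := harmonic_floor_le_one_add_log (2 * Real.sqrt (Q.card : ℝ)) (by linarith)
    rw [harmonic_eq_sum_Icc] at h5
    push_cast at h5
    exact h5
  calc _ ≤ 24 * (128 * (Q.card : ℝ) ^ 2 * ∑ i ∈ J, (i : ℝ)⁻¹) :=
        mul_le_mul_of_nonneg_left h3 (by norm_num)
    _ ≤ 24 * (128 * (Q.card : ℝ) ^ 2 * (1 + Real.log (2 * Real.sqrt (Q.card : ℝ)))) := by
        apply mul_le_mul_of_nonneg_left _ (by norm_num)
        exact mul_le_mul_of_nonneg_left h4 (by positivity)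
    _ = _ := by ring

end Pool.LLN
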