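import Pool.Agent.Work.MP_ef7f46_pw.Rich

/-! Pair weights: the main theorem. helper84 -/

set_option autoImplicit false
open Classical
open EpsNet.Elem (lineThrough spannedLines IsEpsNet)

namespace Pool.LLN

/-- the share of the pairs of points of `Q` on the line `l` -/
noncomputable def share (Q : Finset Pt) (l : Set Pt) : ℝ :=
  (((Q.filter (fun x => x ∈ l)).card.choose 2 : ℕ) : ℝ) / ((Q.card.choose 2 : ℕ) : ℝ)

theorem PW_share (Q : Finset Pt) (l : Set Pt) :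
    share Q l = (cn Q l : ℝ) * ((cn Q l : ℝ) - 1) / ((Q.card : ℝ) * ((Q.card : ℝ) - 1)) := by
  unfold share cn
  rw [Nat.cast_choose_two, Nat.cast_choose_two]
  rw [div_div_div_cancel_right₀ (by norm_num)]

theorem PW_cn_le (Q : Finset Pt) (l : Set Pt) : cn Q l ≤ Q.card :=
  Finset.card_le_card (Finset.filter_subset _ _)

/-- lines spanned by `Q` have at least two points -/
theorem PW_two {Q : Finset Pt} {l : Set Pt} (hl : l ∈ spannedLines Q) : 2 ≤ cn Q l := by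
  unfold EpsNet.Elem.spannedLines at hl
  obtain ⟨z, hz, rfl⟩ := Finset.mem_image.1 hl
  obtain ⟨h1, h2, h3⟩ := Finset.mem_offDiag.1 hz
  unfold cn
  rw [Nat.succ_le_iff, Finset.one_lt_card]
  exact ⟨z.1, Finset.mem_filter.2 ⟨h1, PRG_mem_left _ _⟩, z.2,
    Finset.mem_filter.2 ⟨h2, PRG_mem_right _ _⟩, h3⟩

/-- other lines have at most one point -/
theorem PW_one {P Q : Finset Pt} {l : Set Pt} (hl : l ∈ spannedLines P)
    (hlQ : l ∉ spannedLines Q) : cn Q l ≤ 1 := by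
  unfold cn
  rw [Finset.card_le_one]
  intro a ha b hb
  rw [Finset.mem_filter] at ha hb
  by_contra hab
  apply hlQ
  unfold EpsNet.Elem.spannedLines at hl
  obtain ⟨z, hz, rfl⟩ := Finset.mem_image.1 hl
  rw [← p_LTU z.1 z.2 a b (Finset.mem_offDiag.1 hz).2.2 hab ha.2 hb.2]
  exact PRG_mem ha.1 hb.1 hab

/-- The statement: pair weights. -/
def Stmt_PW : Prop := ∀ (P Q H : Finset Pt) (w : Set Pt → ℝ), 2 ≤ P.card → Q ⊆ P → H ⊆ Q →
  (∀ l ∈ spannedLines P, 0 < w l) → ∀ ε R : ℝ, 0 < ε → ε ≤ 1 → 1 ≤ R →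
  (∀ p ∈ H, ε * (∑ l ∈ spannedLines P, w l) ≤
    ∑ l ∈ spannedLines P with p ∈ l ∧ (l ∈ spannedLines Q →
      w l ≤ R * share Q l * (∑ l' ∈ spannedLines P, w l')), w l) →
  ∃ N ⊆ spannedLines P, (N.card : ℝ) ≤
    1 / ε * (Real.log R + Real.log (5 + Real.log (1 / ε)) + 30) ∧ ∀ p ∈ H, ∃ l ∈ N, p ∈ l

/-- many points -/
theorem PW_large (P Q H : Finset Pt) (w : Set Pt → ℝ) (hP : 2 ≤ P.card) (hQ : Q ⊆ P)
    (hH : H ⊆ Q) (hw : ∀ l ∈ spannedLines P, 0 < w l) (ε R : ℝ) (h0 : 0 < ε) (h1 : ε ≤ 1)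
    (hR : 1 ≤ R) (hW : 0 < ∑ l ∈ spannedLines P, w l)
    (hc : ∀ p ∈ H, ε * (∑ l ∈ spannedLines P, w l) ≤
      ∑ l ∈ spannedLines P with p ∈ l ∧ (l ∈ spannedLines Q →
        w l ≤ R * share Q l * (∑ l' ∈ spannedLines P, w l')), w l)
    (hn : 20 / ε ^ 2 < (Q.card : ℝ)) :
    ∃ N ⊆ spannedLines P, (N.card : ℝ) ≤ 1 / ε * (Real.log R + 29) ∧ ∀ p ∈ H, ∃ l ∈ N, p ∈ l := by
  set n : ℝ := (Q.card : ℝ) with hnn
  set N₁ := (spannedLines Q).filter (fun l => ε * n ≤ (cn Q l : ℝ)) with hN₁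
  have hN₁P : N₁ ⊆ spannedLines P := (Finset.filter_subset _ _).trans (PRG_mono hQ)
  have hε2 : 0 < ε ^ 2 := by positivity
  have hn2 : 20 < n * ε ^ 2 := by rwa [div_lt_iff₀ hε2] at hn
  have hn1 : 1 < n := by
    have : ε ^ 2 ≤ 1 := pow_le_one₀ h0.le h1
    have hn0 : 0 ≤ n := Nat.cast_nonneg _
    nlinarith
  set t : ℕ := ⌊8 / ε⌋₊ + 1 with ht
  have ht1 : 8 / ε < t := by
    rw [ht]
    push_cast
    exact Nat.lt_floor_add_one _
  have ht2 : (t : ℝ) ≤ 9 / ε := by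
    rw [ht]
    push_cast
    have h2 : (⌊8 / ε⌋₊ : ℝ) ≤ 8 / ε := Nat.floor_le (by positivity)
    have h3 : 1 ≤ 1 / ε := by rw [le_div_iff₀ h0]; linarith
    have h4 : 9 / ε = 8 / ε + 1 / ε := by ring
    linarith
  have hte1 : 8 < t * ε := by rwa [div_lt_iff₀ h0] at ht1
  have hte2 : t * ε ≤ 9 := by rwa [le_div_iff₀ h0] at ht2
  have hN₁c : N₁.card < t := by
    refine PW_many P Q N₁ (ε * n - 1) t hQ hN₁P ?_ ?_
    · intro l hl
      have := (Finset.mem_filter.1 hl).2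
      linarith
    · -- 4 n + t² < t (ε n - 1)
      have ht0 : (0 : ℝ) ≤ t := Nat.cast_nonneg _
      rw [← hnn]
      have h5 : (t : ℝ) ^ 2 * ε ^ 2 ≤ 81 := by nlinarith
      have h6 : (t : ℝ) * ε ^ 2 ≤ 9 := by nlinarith
      have h7 : (4 * n + (t : ℝ) ^ 2) * ε ^ 2 < (t * (ε * n - 1)) * ε ^ 2 := by
        have h8 : 8 * (n * ε ^ 2) ≤ (t * ε) * (n * ε ^ 2) := by nlinarith
        nlinarith
      exact lt_of_mul_lt_mul_right h7 hε2.le
  set K := H.filter (fun p => ∀ l ∈ N₁, p ∉ l) with hK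
  have hKQ : K ⊆ Q := (Finset.filter_subset _ _).trans hH
  obtain ⟨N₂, hN₂, hN₂c, hN₂cov⟩ := all_LLH P K w hP (hKQ.trans hQ) hw ε R h0 h1 hR (by
    intro p hp
    obtain ⟨hpH, hpN⟩ := Finset.mem_filter.1 hp
    refine (hc p hpH).trans ?_
    refine Finset.sum_le_sum_of_subset_of_nonneg ?_ fun l hl _ =>
      (hw l (Finset.mem_filter.1 hl).1).le
    intro l hl
    obtain ⟨hlP, hpl, hwl⟩ := Finset.mem_filter.1 hl
    refine Finset.mem_filter.2 ⟨hlP, hpl, fun hlK => ?_⟩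
    have hlQ := PRG_mono hKQ hlK
    refine (hwl hlQ).trans ?_
    have hcs : (cn Q l : ℝ) < ε * n := by
      by_contra hcon
      exact hpN l (Finset.mem_filter.2 ⟨hlQ, not_lt.1 hcon⟩) hpl
    have hc2 : (2 : ℝ) ≤ cn Q l := by exact_mod_cast PW_two hlQ
    have hcn : (cn Q l : ℝ) ≤ n := Nat.cast_le.2 (PW_cn_le Q l)
    have hsh : share Q l ≤ ε ^ 2 := by
      rw [PW_share, div_le_iff₀ (mul_pos (by linarith) (by rw [← hnn]; linarith))]
      rw [← hnn]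
      have h5 : ((cn Q l : ℝ) - 1) ≤ ε * (n - 1) := by
        nlinarith
      nlinarith
    have h6 : share Q l ≤ max (ε ^ 2) (1 / ((spannedLines K).card : ℝ)) :=
      hsh.trans (le_max_left _ _)
    gcongr)
  refine ⟨N₁ ∪ N₂, Finset.union_subset hN₁P hN₂, ?_, ?_⟩
  · have h2 : ((N₁ ∪ N₂).card : ℝ) ≤ (N₁.card : ℝ) + N₂.card := by
      exact_mod_cast Finset.card_union_le _ _
    have h3 : (N₁.card : ℝ) ≤ t := by exact_mod_cast hN₁c.le
    have h4 : 1 / ε * (Real.log R + 29) = 9 / ε + 1 / ε * (Real.log R + 20) := by ring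
    rw [h4]
    linarith
  · intro p hp
    by_cases hcc : ∃ l ∈ N₁, p ∈ l
    · obtain ⟨l, hl, hpl⟩ := hcc
      exact ⟨l, Finset.mem_union_left _ hl, hpl⟩
    · have hpK : p ∈ K := Finset.mem_filter.2 ⟨hp, fun l hl hpl' => hcc ⟨l, hl, hpl'⟩⟩
      obtain ⟨l, hl, hpl'⟩ := hN₂cov p hpK
      exact ⟨l, Finset.mem_union_right _ hl, hpl'⟩

end Pool.LLN
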