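import Pool.Agent.Work.MP_ef7f46_ll.All

/-! Pair weights: counting of rich lines. helper84 -/

set_option autoImplicit false
open Classical
open EpsNet.Elem (lineThrough spannedLines IsEpsNet)

namespace Pool.LLN

/-- the number of the points of `H` on `l` -/
noncomputable def cn (H : Finset Pt) (l : Set Pt) : ℕ := (H.filter (fun p => p ∈ l)).card

/-- INC with constant weights -/
theorem PW_inc (P H : Finset Pt) (𝓛 : Finset (Set Pt)) (q s : ℝ) (hH : H ⊆ P)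
    (h𝓛 : 𝓛 ⊆ spannedLines P) (hq : 0 < q) (hq1 : q ≤ 1) (hs : ∀ l ∈ 𝓛, s ≤ (cn H l : ℝ) - 1) :
    (𝓛.card : ℝ) * s ≤ 4 * (H.card : ℝ) / q + q ^ 2 * (𝓛.card : ℝ) ^ 2 := by
  have h := all_INC P H 𝓛 (fun _ => 1) q hH h𝓛 (fun _ _ => ⟨zero_le_one, le_refl 1⟩) hq hq1
  simp only [one_mul, Finset.sum_const, nsmul_eq_mul, mul_one] at h
  refine le_trans ?_ h
  rw [← nsmul_eq_mul]
  exact Finset.card_nsmul_le_sum _ _ _ hs

/-- few lines contain many points -/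
theorem PW_many (P H : Finset Pt) (𝓛 : Finset (Set Pt)) (s : ℝ) (t : ℕ) (hH : H ⊆ P)
    (h𝓛 : 𝓛 ⊆ spannedLines P) (hs : ∀ l ∈ 𝓛, s ≤ (cn H l : ℝ) - 1)
    (ht : 4 * (H.card : ℝ) + (t : ℝ) ^ 2 < t * s) : 𝓛.card < t := by
  by_contra hcon
  obtain ⟨N, hN, hNc⟩ := Finset.exists_subset_card_eq (not_lt.1 hcon)
  have h := PW_inc P H N 1 s hH (hN.trans h𝓛) one_pos le_rfl (fun l hl => hs l (hN hl))
  rw [hNc] at h
  linarith

/-- Szemeredi-Trotter for the lines with more than `i` points -/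
theorem PW_rich (P H : Finset Pt) (𝓛 : Finset (Set Pt)) (i : ℕ) (hi : 1 ≤ i) (hH : H ⊆ P)
    (h𝓛 : 𝓛 ⊆ spannedLines P) (hs : ∀ l ∈ 𝓛, i + 1 ≤ cn H l) (hn : i * i ≤ 25 * H.card) :
    (𝓛.card : ℝ) * (i : ℝ) ^ 3 ≤ 320 * (H.card : ℝ) ^ 2 := by
  have hi0 : (1 : ℝ) ≤ i := by exact_mod_cast hi
  have hn' : (i : ℝ) * i ≤ 25 * (H.card : ℝ) := by exact_mod_cast hn
  have hs' : ∀ l ∈ 𝓛, (i : ℝ) ≤ (cn H l : ℝ) - 1 := by
    intro l hl
    have : ((i + 1 : ℕ) : ℝ) ≤ (cn H l : ℝ) := by exact_mod_cast hs l hl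
    push_cast at this
    linarith
  set t : ℝ := (𝓛.card : ℝ) with ht
  set n : ℝ := (H.card : ℝ) with hnn
  have ht0 : 0 ≤ t := Nat.cast_nonneg _
  have hn0 : 0 ≤ n := Nat.cast_nonneg _
  by_cases hc : (i : ℝ) ≤ 2 * t
  · have htp : 0 < t := by linarith
    set q : ℝ := Real.sqrt (i / (2 * t)) with hq
    have hq2 : q ^ 2 = i / (2 * t) := Real.sq_sqrt (by positivity)
    have hqp : 0 < q := Real.sqrt_pos.2 (by positivity)
    have hq1 : q ≤ 1 := by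
      rw [hq]
      refine Real.sqrt_le_iff.2 ⟨zero_le_one, ?_⟩
      rw [one_pow, div_le_one (by positivity)]
      exact hc
    have h := PW_inc P H 𝓛 q i hH h𝓛 hqp hq1 hs'
    have h1 : q ^ 2 * t ^ 2 = i * t / 2 := by
      rw [hq2]
      field_simp
    have h2 : t * i / 2 ≤ 4 * n / q := by
      have : t * i ≤ 4 * n / q + i * t / 2 := by
        rw [← h1]
        exact h
      linarith
    have h3 : t * i / 2 * q ≤ 4 * n := by
      rwa [le_div_iff₀ hqp] at h2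
    have h4 : (t * i / 2 * q) ^ 2 ≤ (4 * n) ^ 2 := by
      apply pow_le_pow_left₀ (by positivity) h3
    have h5 : (t * i / 2 * q) ^ 2 = t * i ^ 3 / 8 := by
      have : (t * i / 2 * q) ^ 2 = (t * i / 2) ^ 2 * q ^ 2 := by ring
      rw [this, hq2]
      field_simp
      ring
    rw [h5] at h4
    nlinarith [sq_nonneg n]
  · rw [not_le] at hc
    have h1 : t * (i : ℝ) ^ 3 ≤ i / 2 * (i : ℝ) ^ 3 := by
      apply mul_le_mul_of_nonneg_right (by linarith) (by positivity)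
    have h2 : (i : ℝ) / 2 * (i : ℝ) ^ 3 = ((i : ℝ) * i) ^ 2 / 2 := by ring
    have h3 : ((i : ℝ) * i) ^ 2 ≤ (25 * n) ^ 2 := pow_le_pow_left₀ (by positivity) hn' 2
    rw [h2] at h1
    nlinarith [sq_nonneg n]

/-- layer cake -/
theorem PW_cube (m : ℕ) : (m : ℝ) ^ 3 ≤ ∑ i ∈ Finset.range m, 3 * ((i : ℝ) + 1) ^ 2 := by
  induction m with
  | zero => simp
  | succ m ih =>
    rw [Finset.sum_range_succ]
    push_cast
    have : (0 : ℝ) ≤ m := Nat.cast_nonneg _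
    nlinarith

theorem PW_harm (B : ℕ) : ∑ i ∈ Finset.range B, 1 / ((i : ℝ) + 1) ≤ 1 + Real.log B := by
  have h := harmonic_le_one_add_log B
  have h2 : ((harmonic B : ℚ) : ℝ) = ∑ i ∈ Finset.range B, 1 / ((i : ℝ) + 1) := by
    unfold harmonic
    push_cast
    refine Finset.sum_congr rfl fun i _ => ?_
    rw [one_div]
  rw [← h2]
  exact h

/-- the sum of the cubes -/
theorem PW_sum (P H : Finset Pt) (𝓛 : Finset (Set Pt)) (B : ℕ) (hH : H ⊆ P)
    (h𝓛 : 𝓛 ⊆ spannedLines P) (hB : B * B ≤ 25 * H.card) (hs : ∀ l ∈ 𝓛, cn H l - 1 ≤ B) :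
    ∑ l ∈ 𝓛, ((cn H l - 1 : ℕ) : ℝ) ^ 3 ≤ 960 * (H.card : ℝ) ^ 2 * (1 + Real.log B) := by
  have h1 : ∀ l ∈ 𝓛, ((cn H l - 1 : ℕ) : ℝ) ^ 3 ≤
      ∑ i ∈ Finset.range B, if i + 1 ≤ cn H l - 1 then 3 * ((i : ℝ) + 1) ^ 2 else 0 := by
    intro l hl
    refine (PW_cube _).trans ?_
    rw [← Finset.sum_filter]
    refine Finset.sum_le_sum_of_subset_of_nonneg ?_ fun i _ _ => by positivity
    intro i hi
    rw [Finset.mem_range] at hi
    rw [Finset.mem_filter, Finset.mem_range]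
    have := hs l hl
    constructor <;> omega
  refine (Finset.sum_le_sum h1).trans ?_
  rw [Finset.sum_comm]
  have h2 : ∀ i ∈ Finset.range B,
      ∑ l ∈ 𝓛, (if i + 1 ≤ cn H l - 1 then 3 * ((i : ℝ) + 1) ^ 2 else 0) ≤
        960 * (H.card : ℝ) ^ 2 * (1 / ((i : ℝ) + 1)) := by
    intro i hi
    rw [Finset.mem_range] at hi
    rw [← Finset.sum_filter, Finset.sum_const, nsmul_eq_mul]
    have h3 := PW_rich P H (𝓛.filter (fun l => i + 1 ≤ cn H l - 1)) (i + 1) (by omega) hH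
      ((Finset.filter_subset _ _).trans h𝓛) (fun l hl => by
        have := (Finset.mem_filter.1 hl).2
        omega) (le_trans (Nat.mul_le_mul (by omega) (by omega)) hB)
    push_cast at h3
    have hp : (0 : ℝ) < (i : ℝ) + 1 := by positivity
    rw [mul_one_div, le_div_iff₀ hp]
    nlinarith
  refine (Finset.sum_le_sum h2).trans ?_
  rw [← Finset.mul_sum]
  exact mul_le_mul_of_nonneg_left (PW_harm B) (by positivity)

end Pool.LLN
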