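import Pool.Agent.Work.MP_ef7f46_pw.Main

/-! Pair weights: few points. helper84 -/

set_option autoImplicit false
open Classical
open EpsNet.Elem (lineThrough spannedLines IsEpsNet)

namespace Pool.LLN

theorem PW_log7681 : Real.log 7681 ≤ 9 := by
  rw [Real.log_le_iff_le_exp (by norm_num)]
  have h : (2.7182818283 : ℝ) < Real.exp 1 := Real.exp_one_gt_d9
  have h2 : Real.exp 9 = Real.exp 1 ^ 9 := by
    rw [← Real.exp_nat_mul]
    norm_num
  rw [h2]
  calc (7681 : ℝ) ≤ 2.7182818283 ^ 9 := by norm_num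
    _ ≤ Real.exp 1 ^ 9 := by
      apply pow_le_pow_left₀ (by norm_num) h.le

theorem PW_log500 : Real.log 500 ≤ 8 := by
  rw [Real.log_le_iff_le_exp (by norm_num)]
  have h : (2.7182818283 : ℝ) < Real.exp 1 := Real.exp_one_gt_d9
  have h2 : Real.exp 8 = Real.exp 1 ^ 8 := by
    rw [← Real.exp_nat_mul]
    norm_num
  rw [h2]
  calc (500 : ℝ) ≤ 2.7182818283 ^ 8 := by norm_num
    _ ≤ Real.exp 1 ^ 8 := by
      apply pow_le_pow_left₀ (by norm_num) h.le

/-- the logarithm of the largest size -/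
theorem PW_logB (n : ℕ) (ε : ℝ) (h0 : 0 < ε) (h1 : ε ≤ 1) (hn : (n : ℝ) ≤ 20 / ε ^ 2) :
    1 + Real.log ((Nat.sqrt (25 * n) : ℕ) : ℝ) ≤ 5 + Real.log (1 / ε) := by
  have hl : 0 ≤ Real.log (1 / ε) := Real.log_nonneg (by rw [le_div_iff₀ h0]; linarith)
  rcases Nat.eq_zero_or_pos (Nat.sqrt (25 * n)) with h | h
  · rw [h, Nat.cast_zero, Real.log_zero]
    linarith
  · set B := Nat.sqrt (25 * n) with hB
    have hBp : (0 : ℝ) < B := by exact_mod_cast h
    have h2 : B * B ≤ 25 * n := Nat.sqrt_le (25 * n)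
    have h3 : (B : ℝ) * B ≤ 25 * n := by exact_mod_cast h2
    have h4 : (B : ℝ) * B ≤ 500 * ((1 / ε) * (1 / ε)) := by
      have : 25 * (20 / ε ^ 2) = 500 * ((1 / ε) * (1 / ε)) := by
        field_simp
        norm_num
      nlinarith
    have h5 := Real.log_le_log (by positivity) h4
    have hi : (0 : ℝ) < 1 / ε := by positivity
    rw [Real.log_mul hBp.ne' hBp.ne', Real.log_mul (by norm_num) (by positivity),
      Real.log_mul hi.ne' hi.ne'] at h5
    have := PW_log500
    linarith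

/-- few points -/
theorem PW_small (P Q H : Finset Pt) (w : Set Pt → ℝ) (hQ : Q ⊆ P)
    (hH : H ⊆ Q) (hw : ∀ l ∈ spannedLines P, 0 < w l) (ε R : ℝ) (h0 : 0 < ε) (h1 : ε ≤ 1)
    (hR : 1 ≤ R) (hW : 0 < ∑ l ∈ spannedLines P, w l)
    (hc : ∀ p ∈ H, ε * (∑ l ∈ spannedLines P, w l) ≤
      ∑ l ∈ spannedLines P with p ∈ l ∧ (l ∈ spannedLines Q →
        w l ≤ R * share Q l * (∑ l' ∈ spannedLines P, w l')), w l)
    (hn : (Q.card : ℝ) ≤ 20 / ε ^ 2) :
    ∃ N ⊆ spannedLines P, (N.card : ℝ) ≤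
      1 / ε * (Real.log R + Real.log (5 + Real.log (1 / ε)) + 30) ∧
        ∀ p ∈ H, ∃ l ∈ N, p ∈ l := by
  set W := ∑ l ∈ spannedLines P, w l with hWd
  set L := spannedLines P with hL
  set M := spannedLines Q with hM
  have hML : M ⊆ L := PRG_mono hQ
  set n : ℝ := (Q.card : ℝ) with hnn
  have hn0 : 0 ≤ n := Nat.cast_nonneg _
  have hw0 : ∀ l ∈ L, 0 ≤ w l := fun l hl => (hw l hl).le
  have he1 : 1 ≤ 1 / ε := by rw [le_div_iff₀ h0]; linarith
  have hl : 0 ≤ Real.log (1 / ε) := Real.log_nonneg he1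
  set B := Nat.sqrt (25 * Q.card) with hB
  set N₁ := M.filter (fun l => B < cn Q l - 1) with hN₁
  have hN₁L : N₁ ⊆ L := (Finset.filter_subset _ _).trans hML
  -- few lines in N₁
  have hN₁c : (N₁.card : ℝ) ≤ 6 / ε := by
    rcases Nat.eq_zero_or_pos Q.card with hq | hq
    · have : N₁ = ∅ := by
        rw [Finset.eq_empty_iff_forall_notMem]
        intro l hl
        have h2 := PW_two (Finset.mem_filter.1 hl).1
        have h3 := PW_cn_le Q l
        omega
      rw [this, Finset.card_empty, Nat.cast_zero]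
      positivity
    · set x := Real.sqrt n with hx
      have hn1 : (1 : ℝ) ≤ n := by
        rw [hnn]
        exact_mod_cast hq
      have hx1 : 1 ≤ x := by
        rw [hx, Real.one_le_sqrt]
        exact hn1
      have hxx : x * x = n := Real.mul_self_sqrt hn0
      set t : ℕ := ⌊x⌋₊ + 1 with ht
      have ht1 : x < t := by
        rw [ht]
        push_cast
        exact Nat.lt_floor_add_one _
      have ht2 : (t : ℝ) ≤ x + 1 := by
        rw [ht]
        push_cast
        have := Nat.floor_le (show 0 ≤ x by linarith)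
        linarith
      have hlt : N₁.card < t := by
        refine PW_many P Q N₁ (5 * x) t hQ hN₁L ?_ ?_
        · intro l hl
          obtain ⟨hlM, h3⟩ := Finset.mem_filter.1 hl
          have h2 := PW_two hlM
          have h4 : 25 * Q.card < (cn Q l - 1) * (cn Q l - 1) := Nat.sqrt_lt.1 h3
          have h5 : ((cn Q l - 1 : ℕ) : ℝ) = (cn Q l : ℝ) - 1 := by
            rw [Nat.cast_sub (by omega)]
            simp
          have h6 : 25 * n < ((cn Q l : ℝ) - 1) * ((cn Q l : ℝ) - 1) := by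
            rw [← h5, hnn]
            exact_mod_cast h4
          have h7 : 0 ≤ (cn Q l : ℝ) - 1 := by
            rw [← h5]
            exact Nat.cast_nonneg _
          have h8 : (5 * x) ^ 2 ≤ ((cn Q l : ℝ) - 1) ^ 2 := by nlinarith
          exact le_of_sq_le_sq h8 h7
        · rw [← hnn, ← hxx]
          nlinarith
      have h2 : (N₁.card : ℝ) ≤ t := by exact_mod_cast hlt.le
      have h3 : x ≤ 5 / ε := by
        rw [hx]
        refine Real.sqrt_le_iff.2 ⟨by positivity, hn.trans ?_⟩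
        rw [div_pow]
        gcongr
        norm_num
      have h4 : 6 / ε = 5 / ε + 1 / ε := by ring
      linarith
  set K := H.filter (fun p => ∀ l ∈ N₁, p ∉ l) with hK
  have hKQ : K ⊆ Q := (Finset.filter_subset _ _).trans hH
  set G := L.filter (fun l => (l ∈ M → w l ≤ R * share Q l * W) ∧ l ∉ N₁) with hG
  have hGL : G ⊆ L := Finset.filter_subset _ _
  have hKG : ∀ p ∈ K, ε * W ≤ ∑ l ∈ G.filter (fun l => p ∈ l), w l := by
    intro p hp
    obtain ⟨h2, h3⟩ := Finset.mem_filter.1 hp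
    refine (hc p h2).trans ?_
    refine Finset.sum_le_sum_of_subset_of_nonneg ?_ fun l hl _ => ?_
    · intro l hl
      obtain ⟨hlL, hpl, hwl⟩ := Finset.mem_filter.1 hl
      exact Finset.mem_filter.2 ⟨Finset.mem_filter.2 ⟨hlL, hwl, fun h => h3 l h hpl⟩, hpl⟩
    · exact hw0 l (hGL (Finset.mem_filter.1 hl).1)
  -- double counting
  have hdc : ∑ l ∈ G, w l * ((K.filter (fun p => p ∈ l)).card : ℝ) =
      ∑ p ∈ K, ∑ l ∈ G.filter (fun l => p ∈ l), w l := by
    have h2 : ∀ l ∈ G, w l * ((K.filter (fun p => p ∈ l)).card : ℝ) =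
        ∑ p ∈ K, if p ∈ l then w l else 0 := by
      intro l _
      rw [← Finset.sum_filter, Finset.sum_const, nsmul_eq_mul, mul_comm]
    rw [Finset.sum_congr rfl h2, Finset.sum_comm]
    refine Finset.sum_congr rfl fun p _ => ?_
    exact (Finset.sum_filter (fun l => p ∈ l) (fun l => w l)).symm
  have hlow : (K.card : ℝ) * (ε * W) ≤ ∑ p ∈ K, ∑ l ∈ G.filter (fun l => p ∈ l), w l := by
    rw [← nsmul_eq_mul]
    exact Finset.card_nsmul_le_sum _ _ _ fun p hp => hKG p hp
  -- each line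
  set C : ℝ := 8 * R * W / n ^ 2 with hC
  have hC0 : 0 ≤ C := by positivity
  have hline : ∀ l ∈ G, w l * ((K.filter (fun p => p ∈ l)).card : ℝ) ≤
      w l + (if l ∈ M.filter (fun l => cn Q l - 1 ≤ B) then C * ((cn Q l - 1 : ℕ) : ℝ) ^ 3
        else 0) := by
    intro l hl
    obtain ⟨hlL, hwl, hlN⟩ := Finset.mem_filter.1 hl
    have hwl0 := hw0 l hlL
    have hkc : ((K.filter (fun p => p ∈ l)).card : ℝ) ≤ (cn Q l : ℝ) := by
      unfold cn
      exact_mod_cast Finset.card_le_card (Finset.filter_subset_filter _ hKQ)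
    by_cases hlM : l ∈ M
    · have hlB : cn Q l - 1 ≤ B := by
        by_contra hcon
        exact hlN (Finset.mem_filter.2 ⟨hlM, not_le.1 hcon⟩)
      rw [if_pos (Finset.mem_filter.2 ⟨hlM, hlB⟩)]
      have h2 := PW_two hlM
      have h5 : ((cn Q l - 1 : ℕ) : ℝ) = (cn Q l : ℝ) - 1 := by
        rw [Nat.cast_sub (by omega)]
        simp
      rw [h5]
      set c : ℝ := (cn Q l : ℝ) with hcd
      have hc2 : (2 : ℝ) ≤ c := by
        rw [hcd]
        exact_mod_cast h2
      have hcn : c ≤ n := Nat.cast_le.2 (PW_cn_le Q l)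
      have hw1 : w l ≤ R * share Q l * W := hwl hlM
      have hsh : share Q l ≤ 2 * (c * (c - 1)) / n ^ 2 := by
        rw [PW_share, ← hnn, ← hcd, div_le_div_iff₀ (mul_pos (by linarith) (by linarith))
          (by nlinarith)]
        have h6 : n ^ 2 ≤ 2 * (n * (n - 1)) := by nlinarith
        have h7 : 0 ≤ c * (c - 1) := mul_nonneg (by linarith) (by linarith)
        nlinarith
      have hn2 : 0 < n ^ 2 := by nlinarith
      have h8 : w l * ((K.filter (fun p => p ∈ l)).card : ℝ) ≤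
          R * (2 * (c * (c - 1)) / n ^ 2) * W * c := by
        apply mul_le_mul _ hkc (Nat.cast_nonneg _) (by
          have : 0 ≤ c * (c - 1) := mul_nonneg (by linarith) (by linarith)
          positivity)
        refine hw1.trans ?_
        gcongr
      have h9 : R * (2 * (c * (c - 1)) / n ^ 2) * W * c ≤ C * (c - 1) ^ 3 := by
        rw [hC]
        have e1 : R * (2 * (c * (c - 1)) / n ^ 2) * W * c =
            R * W / n ^ 2 * (2 * c ^ 2 * (c - 1)) := by ring
        have e2 : 8 * R * W / n ^ 2 * (c - 1) ^ 3 = R * W / n ^ 2 * (8 * (c - 1) ^ 3) := by ring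
        rw [e1, e2]
        apply mul_le_mul_of_nonneg_left _ (by positivity)
        have h10 : c ^ 2 ≤ 4 * (c - 1) ^ 2 := by nlinarith
        have h11 : 0 ≤ c - 1 := by linarith
        nlinarith [mul_le_mul_of_nonneg_right h10 h11]
      linarith
    · rw [if_neg (fun h => hlM (Finset.mem_filter.1 h).1), add_zero]
      have h3 : (cn Q l : ℝ) ≤ 1 := by exact_mod_cast PW_one hlL hlM
      calc w l * ((K.filter (fun p => p ∈ l)).card : ℝ) ≤ w l * 1 :=
            mul_le_mul_of_nonneg_left (hkc.trans h3) hwl0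
        _ = w l := mul_one _
  have hsumw : ∑ l ∈ G, w l ≤ W := Finset.sum_le_sum_of_subset_of_nonneg hGL fun l hl _ => hw0 l hl
  have hcube : ∑ l ∈ G, (if l ∈ M.filter (fun l => cn Q l - 1 ≤ B) then
      C * ((cn Q l - 1 : ℕ) : ℝ) ^ 3 else 0) ≤ C * (960 * n ^ 2 * (1 + Real.log B)) := by
    have h2 : ∑ l ∈ M.filter (fun l => cn Q l - 1 ≤ B), ((cn Q l - 1 : ℕ) : ℝ) ^ 3 ≤
        960 * n ^ 2 * (1 + Real.log B) :=
      PW_sum P Q _ B hQ ((Finset.filter_subset _ _).trans hML) (Nat.sqrt_le _)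
        (fun l hl => (Finset.mem_filter.1 hl).2)
    refine le_trans ?_ (mul_le_mul_of_nonneg_left h2 hC0)
    rw [← Finset.sum_filter, Finset.mul_sum]
    refine Finset.sum_le_sum_of_subset_of_nonneg ?_ fun l _ _ => by positivity
    intro l hl
    exact (Finset.mem_filter.1 hl).2
  have hlogB : 1 + Real.log (B : ℝ) ≤ 5 + Real.log (1 / ε) := PW_logB Q.card ε h0 h1 hn
  have hCn : C * (960 * n ^ 2 * (1 + Real.log B)) ≤ 7680 * R * W * (5 + Real.log (1 / ε)) := by
    rcases hn0.eq_or_lt with hz | hz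
    · have hz2 : C * (960 * n ^ 2 * (1 + Real.log B)) = 0 := by
        rw [← hz]
        ring
      rw [hz2]
      exact mul_nonneg (by positivity) (by linarith)
    · have e1 : C * (960 * n ^ 2 * (1 + Real.log B)) = 7680 * R * W * (1 + Real.log B) := by
        rw [hC]
        field_simp
        ring
      rw [e1]
      apply mul_le_mul_of_nonneg_left hlogB (by positivity)
  have hKW : (K.card : ℝ) * (ε * W) ≤ 7681 * R * (5 + Real.log (1 / ε)) * W := by
    have h2 := Finset.sum_le_sum hline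
    rw [Finset.sum_add_distrib] at h2
    rw [hdc] at h2
    have h3 : W ≤ R * (5 + Real.log (1 / ε)) * W := by
      have : 1 ≤ R * (5 + Real.log (1 / ε)) := by nlinarith
      nlinarith
    nlinarith
  set K₀ : ℝ := 7681 * R * (5 + Real.log (1 / ε)) with hK₀
  have hK₀1 : 1 ≤ K₀ := by
    rw [hK₀]
    nlinarith
  have hKc : (K.card : ℝ) ≤ K₀ / ε := by
    rw [le_div_iff₀ h0]
    have : (K.card : ℝ) * ε * W ≤ K₀ * W := by linarith
    exact le_of_mul_le_mul_right this hW
  obtain ⟨N₂, hN₂L, hN₂c, hN₂⟩ := p_GRD Pt (Set Pt) K G (fun p l => p ∈ l) w ε W K₀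
    (fun l hl => hw0 l (hGL hl)) hW hsumw h0 h1 hKG hK₀1 hKc
  refine ⟨N₁ ∪ N₂, Finset.union_subset hN₁L (hN₂L.trans hGL), ?_, ?_⟩
  · have h2 : ((N₁ ∪ N₂).card : ℝ) ≤ (N₁.card : ℝ) + N₂.card := by
      exact_mod_cast Finset.card_union_le _ _
    have h3 : Real.log K₀ ≤ 9 + Real.log R + Real.log (5 + Real.log (1 / ε)) := by
      rw [hK₀, Real.log_mul (by positivity) (by positivity), Real.log_mul (by norm_num)
        (by positivity)]
      linarith [PW_log7681]
    have h4 : 1 / ε * (Real.log K₀ + 2) ≤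
        1 / ε * (Real.log R + Real.log (5 + Real.log (1 / ε)) + 11) :=
      mul_le_mul_of_nonneg_left (by linarith) (by positivity)
    have h5 : 1 / ε * (Real.log R + Real.log (5 + Real.log (1 / ε)) + 30) =
        1 / ε * (Real.log R + Real.log (5 + Real.log (1 / ε)) + 11) + 6 / ε + 13 / ε := by ring
    have h6 : 0 ≤ 13 / ε := by positivity
    linarith
  · intro p hp
    by_cases hcc : ∃ l ∈ N₁, p ∈ l
    · obtain ⟨l, hl, hpl⟩ := hcc
      exact ⟨l, Finset.mem_union_left _ hl, hpl⟩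
    · have hpK : p ∈ K := Finset.mem_filter.2 ⟨hp, fun l hl hpl' => hcc ⟨l, hl, hpl'⟩⟩
      obtain ⟨l, hl, hpl'⟩ := hN₂ p hpK
      exact ⟨l, Finset.mem_union_right _ hl, hpl'⟩

theorem all_PW : Stmt_PW := by
  intro P Q H w hP hQ hH hw ε R h0 h1 hR hc
  have hW : 0 < ∑ l ∈ spannedLines P, w l := by
    refine Finset.sum_pos hw ?_
    obtain ⟨a, ha, b, hb, hab⟩ := Finset.one_lt_card.1 (by omega : 1 < P.card)
    exact ⟨_, PRG_mem ha hb hab⟩
  by_cases hn : (Q.card : ℝ) ≤ 20 / ε ^ 2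
  · exact PW_small P Q H w hQ hH hw ε R h0 h1 hR hW hc hn
  · obtain ⟨N, hN, hNc, hcov⟩ := PW_large P Q H w hP hQ hH hw ε R h0 h1 hR hW hc (not_le.1 hn)
    refine ⟨N, hN, hNc.trans ?_, hcov⟩
    have he1 : 1 ≤ 1 / ε := by rw [le_div_iff₀ h0]; linarith
    have hl : 0 ≤ Real.log (1 / ε) := Real.log_nonneg he1
    have h2 : 0 ≤ Real.log (5 + Real.log (1 / ε)) := Real.log_nonneg (by linarith)
    exact mul_le_mul_of_nonneg_left (by linarith) (by linarith)

end Pool.LLN
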